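import Pool.Agent.W912.ND.Defs

set_option autoImplicit false

namespace Pool.Agent.W82.ND

open Filter Pool.Agent.NPC Pool.Agent.H620R2.Gauge Pool.Agent.W900.CH Pool.Agent.W912.ND

theorem close : S_CLOSE := by
  classical
  intro g ε hε hg
  obtain ⟨K, hK⟩ := exists_K hε
  refine ⟨K, ?_⟩
  intro O A R W hR hW hb hoff
  have hK0 : K ≠ 0 := by
    rintro rfl
    norm_num at hK
  unfold Close
  filter_upwards [hg, pow_facts hε, eventually_ge_atTop 1] with n h1 h2 h3
  have hn0 : (0 : ℝ) < n := by exact_mod_cast h3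
  have hn1 : (1 : ℝ) ≤ n := by exact_mod_cast h3
  set T : Finset ℕ := (Finset.range n).filter (fun S => R S ≤ n) with hT
  have hfin : ∀ S ∈ T, (W S).Finite := by
    intro S hS
    rw [hT, Finset.mem_filter] at hS
    refine (finite_short n).subset ?_
    intro y hy
    show y.length ≤ n
    rw [hW S y hy]
    exact hS.2
  let F : ℕ → Finset (List Bool) := fun S => if h : (W S).Finite then h.toFinset else ∅
  have hF : ∀ S ∈ T, (F S : Set (List Bool)) = W S := by
    intro S hS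
    show ((if h : (W S).Finite then h.toFinset else ∅ : Finset (List Bool)) :
      Set (List Bool)) = W S
    rw [dif_pos (hfin S hS)]
    exact (hfin S hS).coe_toFinset
  have hFc : ∀ S ∈ T, (F S).card = (W S).ncard := by
    intro S hS
    rw [← hF S hS, Set.ncard_coe_finset]
  have hsub : {x : List Bool | x.length ≤ n ∧ A x ≠ O x} ⊆ ((T.biUnion F : Finset (List Bool)) :
      Set (List Bool)) := by
    rintro x ⟨hx, hd⟩
    by_contra hcon
    apply hd
    apply hoff
    rintro ⟨S, hS⟩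
    apply hcon
    rw [Finset.mem_coe, Finset.mem_biUnion]
    have h4 : R S ≤ n := by
      rw [← hW S x hS]
      exact hx
    have h5 : S + 1 ≤ (S + 1) ^ K := Nat.le_self_pow hK0 _
    have hST : S ∈ T := by
      rw [hT, Finset.mem_filter, Finset.mem_range]
      refine ⟨?_, h4⟩
      have := hR S
      omega
    refine ⟨S, hST, ?_⟩
    rw [← Finset.mem_coe, hF S hST]
    exact hS
  have hdist : Pool.Agent.W900.CH.dist O A n ≤ ∑ S ∈ T, (W S).ncard := by
    unfold Pool.Agent.W900.CH.dist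
    calc Set.ncard {x : List Bool | x.length ≤ n ∧ A x ≠ O x}
        ≤ Set.ncard ((T.biUnion F : Finset (List Bool)) : Set (List Bool)) :=
          Set.ncard_le_ncard hsub (Finset.finite_toSet _)
      _ = (T.biUnion F).card := Set.ncard_coe_finset _
      _ ≤ ∑ S ∈ T, (F S).card := Finset.card_biUnion_le
      _ = ∑ S ∈ T, (W S).ncard := Finset.sum_congr rfl hFc
  have hterm : ∀ S ∈ T, ((W S).ncard : ℝ) ≤ 2 ^ (n : ℝ) ^ (ε / 2) := by
    intro S hS
    obtain ⟨b, hb1, hb2⟩ := hb S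
    rw [hT, Finset.mem_filter] at hS
    have h4 : (b + 1) ^ K ≤ n := hb1.trans hS.2
    have h5 : b ^ K ≤ n := (Nat.pow_le_pow_left (Nat.le_succ b) K).trans h4
    have h6 : ((b : ℝ)) ^ K ≤ n := by exact_mod_cast h5
    have h7 : (b : ℝ) ≤ (n : ℝ) ^ (ε / 2) := by
      have hKpos : (0 : ℝ) < K := by exact_mod_cast Nat.pos_of_ne_zero hK0
      calc (b : ℝ) = ((b : ℝ) ^ K) ^ ((K : ℝ)⁻¹) :=
            (Real.pow_rpow_inv_natCast (Nat.cast_nonneg b) hK0).symm
        _ ≤ (n : ℝ) ^ ((K : ℝ)⁻¹) :=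
            Real.rpow_le_rpow (by positivity) h6 (by positivity)
        _ ≤ (n : ℝ) ^ (ε / 2) := by
            apply Real.rpow_le_rpow_of_exponent_le hn1
            rw [inv_le_iff_one_le_mul₀ hKpos]
            exact hK.le
    calc ((W S).ncard : ℝ) ≤ ((2 ^ b : ℕ) : ℝ) := by exact_mod_cast hb2
      _ = (2 : ℝ) ^ (b : ℝ) := by push_cast; rw [Real.rpow_natCast]
      _ ≤ 2 ^ (n : ℝ) ^ (ε / 2) := Real.rpow_le_rpow_of_exponent_le (by norm_num) h7
  have hTc : (T.card : ℝ) ≤ n := by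
    have : T.card ≤ n := by
      rw [hT]
      refine (Finset.card_filter_le _ _).trans ?_
      rw [Finset.card_range]
    exact_mod_cast this
  calc (Pool.Agent.W900.CH.dist O A n : ℝ) ≤ ((∑ S ∈ T, (W S).ncard : ℕ) : ℝ) := by exact_mod_cast hdist
    _ = ∑ S ∈ T, ((W S).ncard : ℝ) := by push_cast; rfl
    _ ≤ ∑ S ∈ T, (2 : ℝ) ^ (n : ℝ) ^ (ε / 2) := Finset.sum_le_sum hterm
    _ = T.card * (2 : ℝ) ^ (n : ℝ) ^ (ε / 2) := by rw [Finset.sum_const, nsmul_eq_mul]
    _ ≤ n * (2 : ℝ) ^ (n : ℝ) ^ (ε / 2) := by gcongr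
    _ = (2 : ℝ) ^ (Real.logb 2 n) * (2 : ℝ) ^ (n : ℝ) ^ (ε / 2) := by
        rw [Real.rpow_logb (by norm_num) (by norm_num) hn0]
    _ = (2 : ℝ) ^ (Real.logb 2 n + (n : ℝ) ^ (ε / 2)) := by
        rw [← Real.rpow_add (by norm_num)]
    _ ≤ (2 : ℝ) ^ (n : ℝ) ^ ε := by
        apply Real.rpow_le_rpow_of_exponent_le (by norm_num)
        linarith
    _ ≤ g n := h1.le

end Pool.Agent.W82.ND
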